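import Pool.Agent.Helper11.M3.GoalsA
import Pool.Agent.Helper22.PP.POMG

set_option autoImplicit false

namespace Pool.Agent.Helper96.M3

open NumberField Polynomial Module
open Pool.Agent.Helper42.PP Pool.Agent.Helper42.PP1 Pool.Agent.Helper11.M3

theorem a_oms : Pool.Agent.Helper11.M3.A_OMS := by
  intro p _ K M K₁ M₁ _ _ _ _ _ _ _ _ _ _ _ _ _ ε δ P hS hp hfr i ε₀ hP hε₀ hδ
  haveI := hS.st1
  haveI := hS.st2
  haveI := hS.gK
  have hinj : Function.Injective (algebraMap K₁ M₁) := (algebraMap K₁ M₁).injective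
  refine ⟨hp, ?_, ⟨ε₀, hε₀⟩, ?_, ?_⟩
  · rw [hP]; exact natDegree_X_sub_C _
  · intro g hg
    set σ : K₁ ≃ₐ[K] K₁ := g.restrictNormal K₁ with hσ
    have hσc : ∀ x, algebraMap K₁ M₁ (σ x) = g (algebraMap K₁ M₁ x) :=
      fun x => AlgEquiv.restrictNormal_commutes g K₁ x
    have h1 : σ = 1 := by
      apply hS.gen
      apply hinj
      rw [hσc, hg]
    have hbot : (⊥ : Subalgebra K₁ M₁) = ⊤ := Subalgebra.bot_eq_top_of_finrank_eq_one hfr
    ext y
    have hy : y ∈ (⊥ : Subalgebra K₁ M₁) := by rw [hbot]; exact Algebra.mem_top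
    obtain ⟨x, rfl⟩ := Algebra.mem_bot.1 hy
    rw [← hσc, h1]
    rfl
  · intro g j σ hgM hgK
    have hpow : ∀ j : ℕ, (δ ^ j) ε₀ = ε₀ ^ (i ^ j) := by
      intro j
      induction j with
      | zero => simp
      | succ j ih =>
        rw [pow_succ', AlgEquiv.mul_apply, ih, map_pow, hδ, ← pow_mul, pow_succ']
    have hσε : σ ε = ε ^ (i ^ j) := by
      apply hinj
      rw [← hgK, ← hε₀, hgM, hpow, map_pow, map_pow, hε₀]
    rw [Pool.Agent.Helper22.PP.nsig_eq hS.prim hσε]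
    have hroot : AdjoinRoot.root P = algebraMap (ZMod p) (AdjoinRoot P) (i : ZMod p) := by
      subst hP
      have := AdjoinRoot.eval₂_root (X - C (i : ZMod p))
      rw [eval₂_sub, eval₂_X, eval₂_C, sub_eq_zero] at this
      rw [this]
      rfl
    rw [hroot, ← map_pow]
    push_cast
    rfl

end Pool.Agent.Helper96.M3
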